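import Pool.Agent.H37.CTP.Stmts
import Pool.Agent.H14.CTN.UB3

/-!
# Row UB4 of the board `ctp`
-/

set_option autoImplicit false

namespace Pool.CND.UB4H

open Pool.CND.T61H

/-- an additive function on `H` not vanishing at `z`: a subgroup of index `2` without `z` -/
theorem half {G G' F : Type} [Group G] [Group G'] [Field F] [CharP F 2] (π : G →* G')
    (H : Subgroup G) (χ : G → F) (hχ : ∀ x ∈ H, ∀ y ∈ H, χ (x * y) = χ x + χ y) (z : G)
    (hz : z ∈ H) (hz0 : χ z ≠ 0) (hinj : ∀ x ∈ H, π x = 1 → x = 1) :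
    ∃ H₀ : Subgroup G', H₀ ≤ H.map π ∧ π z ∉ H₀ ∧ Nat.card (H.map π) = 2 * Nat.card H₀ := by
  let _ : Algebra (ZMod 2) F := ZMod.algebra F 2
  obtain ⟨l, hl⟩ : ∃ l : Module.Dual (ZMod 2) F, l (χ z) ≠ 0 := by
    by_contra hc
    push Not at hc
    exact hz0 ((Module.forall_dual_apply_eq_zero_iff (ZMod 2) (χ z)).1 hc)
  let θ : H →* Multiplicative (ZMod 2) := MonoidHom.mk' (fun x => Multiplicative.ofAdd (l (χ x)))
    (by
      intro x y
      rw [← ofAdd_add, ← map_add]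
      congr 2
      exact hχ _ x.2 _ y.2)
  have hθz : θ ⟨z, hz⟩ ≠ 1 := by
    intro h
    exact hl (Multiplicative.ofAdd.injective h)
  have hsurj : Function.Surjective θ := by
    intro y
    by_cases hy : y = 1
    · exact ⟨1, by rw [map_one, hy]⟩
    · refine ⟨⟨z, hz⟩, ?_⟩
      have h1 : ∀ u v : ZMod 2, u ≠ 0 → v ≠ 0 → u = v := by decide
      exact Multiplicative.toAdd.injective (h1 _ _ (fun h => hθz (Multiplicative.toAdd.injective h))
        (fun h => hy (Multiplicative.toAdd.injective h)))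
  have hM : Nat.card (Multiplicative (ZMod 2)) = 2 := by
    rw [Nat.card_congr Multiplicative.toAdd, Nat.card_zmod]
  have hc1 : Nat.card H = 2 * Nat.card θ.ker := by
    rw [← Subgroup.card_mul_index θ.ker, Subgroup.index_ker, MonoidHom.range_eq_top.2 hsurj,
      Subgroup.card_top, hM, mul_comm]
  refine ⟨(θ.ker.map H.subtype).map π, ?_, ?_, ?_⟩
  · rintro _ ⟨_, ⟨x, -, rfl⟩, rfl⟩
    exact ⟨x, x.2, rfl⟩
  · rintro ⟨_, ⟨x, hx, rfl⟩, hxz⟩
    have h1 : (x : G) * z⁻¹ = 1 := by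
      apply hinj _ (H.mul_mem x.2 (H.inv_mem hz))
      rw [map_mul, map_inv]
      rw [show π (x : G) = π z from hxz, mul_inv_cancel]
    have h2 : x = ⟨z, hz⟩ := Subtype.ext (mul_inv_eq_one.1 h1)
    apply hθz
    rw [← h2]
    exact hx
  · rw [card_map π H hinj, card_map π (θ.ker.map H.subtype), card_map H.subtype θ.ker, hc1]
    · intro x _ hx
      exact Subtype.ext hx
    · rintro _ ⟨x, -, rfl⟩ h
      exact hinj _ x.2 h

end Pool.CND.UB4H

namespace Pool.CND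

open Pool.CND.T61H

theorem ub4_thm (h2 : S_UB1) (h3 : S_UB2) (h1 : S_GDX) : S_UB4 := by
  intro f q n k F G _ _ _ _ _ _ C _ ι hf hq hcard hn hι hC hpC
  have hp : (2 : ℕ).Prime := Nat.prime_two
  have hpF : Fact (2 : ℕ).Prime := ⟨hp⟩
  have hq2 : 2 ≤ q := by
    rw [hq]
    calc 2 = 2 ^ 1 := (pow_one 2).symm
      _ ≤ 2 ^ f := Nat.pow_le_pow_right hp.pos hf
  have hF2 : CharP F 2 := by
    have hfin : Finite F := Nat.finite_of_card_ne_zero (by omega)
    have h4 : (Nat.card F) • (1 : F) = 0 := by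
      have := card_nsmul_eq_zero' (x := (1 : F))
      exact this
    rw [hcard, hq, nsmul_eq_mul, mul_one, Nat.cast_pow, Nat.cast_ofNat] at h4
    exact CharTwo.of_one_ne_zero_of_two_eq_zero one_ne_zero (pow_eq_zero_iff (by omega) |>.1 h4)
  have hpos : 1 ≤ f * (n - 2) := Nat.mul_pos (by omega) (by omega)
  set r := (Finset.Icc 1 (n - 1)).lcm (fun m => q ^ m - 1) with hr
  have hr1 : 1 ≤ r := by
    apply Nat.one_le_iff_ne_zero.2
    rw [hr, Finset.lcm_ne_zero_iff]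
    intro m hm
    have hm1 : 1 ≤ m := (Finset.mem_Icc.1 hm).1
    have : 2 ^ 1 ≤ q ^ m := (Nat.pow_le_pow_left hq2 1).trans (Nat.pow_le_pow_right (by omega) hm1)
    omega
  refine h1 2 k (G ⧸ C) (f * (n - 2) - 1) r hp inferInstance hr1 ?_
  rintro W ⟨N, hN⟩ -
  obtain ⟨W₁, hP, hmap, hinj, hall⟩ := lift_p 2 C hC hpC W N hN
  set π := QuotientGroup.mk' C with hπ
  have hW1 : ∀ x ∈ W₁, π x ∈ W := fun x hx => hmap ▸ ⟨x, hx, rfl⟩
  have hιk : ∀ x : G, ι x = 1 → x = 1 := fun x hx => hι (by rw [hx, map_one])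
  constructor
  · intro z hzW hz1 hzp hzc
    rw [← hmap] at hzW
    obtain ⟨z₁, hz₁, rfl⟩ := hzW
    have hc1 : ∀ w ∈ W₁, w * z₁ = z₁ * w := by
      intro w hw
      have h2 := hinj (w * z₁ * (z₁ * w)⁻¹)
        (W₁.mul_mem (W₁.mul_mem hw hz₁) (W₁.inv_mem (W₁.mul_mem hz₁ hw)))
        (by rw [map_mul, map_inv, map_mul, map_mul, hzc (π w) (hW1 w hw), mul_inv_cancel])
      exact mul_inv_eq_one.1 h2
    have hz₁1 : z₁ ≠ 1 := by
      intro h
      exact hz1 (by rw [h, map_one])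
    have hcW : Nat.card (W₁.map ι) = Nat.card W₁ := card_map ι W₁ (fun x _ => hιk x)
    obtain ⟨H', d, χ, hHW, hzH, hd, hcd, hχ, hχz⟩ := h2 2 f q n F (W₁.map ι) (ι z₁) hp hf hq hcard
      (by omega) (by
        obtain ⟨a, ha⟩ := IsPGroup.iff_card.1 hP
        exact ⟨a, by rw [hcW, ha]⟩) ⟨z₁, hz₁, rfl⟩ (fun h => hz₁1 (hιk _ h)) (by
        rintro _ ⟨w, hw, rfl⟩
        rw [← map_mul, ← map_mul, hc1 w hw])
    set H₁ : Subgroup G := H'.comap ι with hH₁
    have hH₁W : H₁ ≤ W₁ := by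
      intro x hx
      obtain ⟨y, hy, hyx⟩ := hHW (show ι x ∈ H' from hx)
      rw [← hι hyx]
      exact hy
    have hH₁m : H₁.map ι = H' := by
      ext y
      constructor
      · rintro ⟨x, hx, rfl⟩
        exact hx
      · intro hy
        obtain ⟨x, hx, rfl⟩ := hHW hy
        exact ⟨x, hy, rfl⟩
    have hz₁H : z₁ ∈ H₁ := hzH
    have hin : ∀ x ∈ H₁, π x = 1 → x = 1 := fun x hx => hinj x (hH₁W hx)
    have hχ₁ : ∀ x ∈ H₁, ∀ y ∈ H₁, χ (ι (x * y)) = χ (ι x) + χ (ι y) :=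
      fun x hx y hy => by rw [map_mul]; exact hχ _ hx _ hy
    refine ⟨H₁.map π, d, ?_, ⟨z₁, hz₁H, rfl⟩, ?_, ?_⟩
    · rintro _ ⟨x, hx, rfl⟩
      exact hW1 x (hH₁W hx)
    · rw [← hmap, card_map π W₁ hinj, card_map π H₁ hin, ← hcW, hcd, ← hH₁m,
        card_map ι H₁ (fun x _ => hιk x)]
    · by_cases hd1 : d ≤ f * (n - 2) - 1
      · exact Or.inl ⟨UB3H.psec 2 π H₁ (fun x => χ (ι x)) hχ₁ z₁ hz₁H hχz hin, hd1⟩
      · obtain ⟨H₀, ha, hb, hc⟩ := UB4H.half π H₁ (fun x => χ (ι x)) hχ₁ z₁ hz₁H hχz hin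
        exact Or.inr ⟨rfl, by omega, by omega, H₀, ha, hb, hc⟩
  · intro g C' hg hgW hC'W hC'b _ _ hC'g _ x _
    obtain ⟨h, rfl⟩ := QuotientGroup.mk'_surjective C g
    have hh : ¬ 2 ∣ orderOf h := by
      intro hd
      have h2 : h ^ orderOf (π h) ∈ C := by
        rw [← QuotientGroup.eq_one_iff]
        show π (h ^ orderOf (π h)) = 1
        rw [map_pow, pow_orderOf_eq_one]
      have h3 : h ^ (orderOf (π h) * Nat.card C) = 1 := by
        rw [pow_mul]
        have : (⟨_, h2⟩ : C) ^ Nat.card C = 1 := pow_card_eq_one'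
        exact congrArg (fun u : C => (u : G)) this
      have h4 := hd.trans (orderOf_dvd_of_pow_eq_one h3)
      rcases hp.dvd_mul.1 h4 with h5 | h5
      · exact hg h5
      · exact hpC h5
    set C₁ : Subgroup G := W₁ ⊓ C'.comap π with hC₁
    have hn1 : ∀ w ∈ C₁, h * w * h⁻¹ ∈ C₁ := by
      rintro w ⟨hw, hwC⟩
      have h6 : π (h * w * h⁻¹) ∈ C' := by
        rw [map_mul, map_mul, map_inv]
        exact hC'g _ hwC
      refine ⟨hall _ (hC'W h6) ?_, h6⟩
      obtain ⟨m, hm⟩ := hP ⟨w, hw⟩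
      refine ⟨m, ?_⟩
      have hm' : w ^ 2 ^ m = 1 := congrArg (fun u : W₁ => (u : G)) hm
      rw [conj_pow, hm', mul_one, mul_inv_cancel]
    have hCb : C₁ ≠ ⊥ := by
      intro hb
      apply hC'b
      rw [eq_bot_iff]
      intro c hc
      have h6 := hC'W hc
      rw [← hmap] at h6
      obtain ⟨w, hw, rfl⟩ := h6
      have h7 : w ∈ C₁ := ⟨hw, hc⟩
      rw [hb, Subgroup.mem_bot] at h7
      rw [h7, map_one]
      exact Subgroup.one_mem _
    have hPC : IsPGroup 2 C₁ := hP.to_le inf_le_left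
    obtain ⟨a, ha⟩ := IsPGroup.iff_card.1 hPC
    have h8 := h3 2 f q n F (C₁.map ι) (ι h) hp hf hq hcard
      ⟨a, by rw [card_map ι C₁ (fun x _ => hιk x), ha]⟩ (by
        intro hb
        apply hCb
        rw [eq_bot_iff]
        intro c hc
        have h9 : ι c ∈ C₁.map ι := ⟨c, hc, rfl⟩
        rw [hb, Subgroup.mem_bot] at h9
        rw [Subgroup.mem_bot]
        exact hιk c h9) (by
        rintro _ ⟨w, hw, rfl⟩
        refine ⟨h * w * h⁻¹, hn1 w hw, by simp⟩) (by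
        rw [orderOf_injective ι hι]
        exact hh)
    have h9 : h ^ r = 1 := by
      apply hιk
      rw [map_pow]
      exact h8
    rw [← map_pow, h9, map_one, one_mul, mul_one]

end Pool.CND
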